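import Pool.Agent.Run7.h190.EV.Hdg

/-!
# The standard conjecture of Hodge type for products of powers of varieties of even dimension with
finite inertia, in any characteristic

Let `W` be a Weil cohomology theory with algebraically closed coefficients on a class of smooth
proper varieties over a field `k` of any characteristic (only the positive one is of interest here),
and `G` a class of varieties, closed under products, with an action of a group `Γ` with the formal
properties of a Galois action (the example: varieties over a subfield `F` of the algebraically closed
field `k`, and the Galois group of `F`; `χ` is the action on the Tate twists).

Let `X_i` be varieties in `G`, with divisors `D_i` which satisfy the hard Lefschetz theorem and the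
standard conjectures of Lefschetz and of Hodge type (for example curves and surfaces, in any
characteristic), whose transcendental cohomology `T_i` (the orthogonal complement of all algebraic
classes; `H^1` of a curve, the transcendental part of `H^2` of a surface) is in the middle degree
and irreducible under all subgroups of finite index of `Γ`. Let `Z` be **any** variety in `G`, and `E`
any divisor on `Z` for which the hard Lefschetz theorem holds.

**The condition in even dimension.** If `dim X_i` is even, some element of `Γ` (a Frobenius element) has
two eigenvalues on `T_i` whose quotient is not a root of unity, and there is an element `g_i` of `Γ` (of
an inertia group) with `χ(g_i) = 1` which acts on `T_i` with finite order and has a **simple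
eigenvalue** `α` on `T_i` which is isolated with respect to a group `Λ` of numbers containing all
eigenvalues of `g_i` on the cohomology of `Z` and of the `X_j` with `j ≠ i`: for all eigenvalues `β` of
`g_i` on `T_i` different from `α` and `α⁻¹` the number `β / α` is not in `Λ`, and it is the quotient of
no other pair of eigenvalues of `g_i` on `T_i` except the dual pair `(β⁻¹, α⁻¹)` and pairs `(α', α'⁻¹)` with
`α'` simple. If `α` is not `1` or `-1`, then `dim T_i ≥ 5`.

Examples: surfaces over a function field with a place of good reduction and a place at which `X_i`
acquires one ordinary double point in odd residue characteristic (`g_i` is a reflection, `α = -1`), a
cusp `x ^ 3 + y ^ 2 + z ^ 2 = t` (eigenvalues `1` and the two primitive third roots of unity, which are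
simple), or a singularity `D_4` (eigenvalues `1`, `-1` twice and the two primitive sixth roots of
unity).

**The condition in odd dimension** is the condition of the starting result
`MP_96693b_ag.FiniteInertiaProducts` (isolated eigenvalues, or unipotent elements with coprime defects).

**Theorem.** Let `T` be the product of `Z` with powers `X_i ^ (n_i)` of the `X_i` (arbitrary exponents if
`dim X_i` is odd, and `n_i < dim T_i` if `dim X_i` is even), with the sum of the pull-backs of the
divisors.

1. The standard conjecture of Hodge type holds for `T` **if and only if** it holds for `(Z, E)`. In
   particular it holds for `T` if `Z` is a point, a curve, a surface or a threefold (with an ample `E`).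
2. Homological and numerical equivalence coincide for `T` if and only if they do for `Z`.

Nothing is assumed about `Z` (no standard conjecture, no condition on the Galois action except that the
eigenvalues of `g_i` on its cohomology are in `Λ`). In characteristic `p` the products have cohomology
classes in all degrees, and the conjecture is known only for the classes of divisors; the first cases
are the fourfolds `X × X` and the sixfolds `X × X × X`, for a surface `X` over a function field with
a cusp.

Proof. The Lie algebra of the operators on `T_i` which kill all multilinear maps from `T_i` to the
cohomology of the other factors which are equivariant under some subgroup of finite index is the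
whole orthogonal Lie algebra (this is proved in `Run7.h190.EV.Full` and `Run7.h190.EV.Core`, with the
elements `w ∧ p` for an eigenvector `p` for `α`). By the first fundamental theorem for the orthogonal
group, with values in the cohomology of the other factors, the algebraic classes on the product are
combinations of products of algebraic classes of the power of `X_i` and of classes of the other factor.
The powers of `X_i` satisfy the conjectures of Hodge type and D, and this allows to split the cycles;
the form of the product on the tensor product of two spaces with Lefschetz decompositions is computed
by the theorem on the tensor products of polarizations.
-/

universe u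

namespace Pool.Agent.Results.MP_361a6f_ag.EvenFiniteInertia

open Pool.Agent.H914 Pool.Agent.H914.VarClass.Obj Pool.Agent.H281R3.HT Pool.Agent.TH125.Gal
  Run7.h190.EV

/-- **The conjectures of Hodge type and D for products of powers of varieties of both parities with
finite inertia and any variety `Z` are equivalent to the conjectures for `Z`.** -/
theorem result {k : Type u} [Field k] {𝒱 : VarClass k} {ops : CycleOps 𝒱}
    (W : WeilCohomology.{u, 0} ops) [IsAlgClosed W.K] {Γ : Type} [Group Γ] (χ : Γ →* W.Kˣ)
    (G : Set (GVar W Γ)) {ι : Type} (Y : ι → GVar W Γ) (D : ∀ i, (Y i).X.Cycles)
    (Z : GVar W Γ) (h : FiniteSystem χ G Y D Z) (E : Z.X.Cycles) (hE : Z.X.IsCyc 1 E)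
    (hHL : HardLefschetz W Z.X E) (L : List (ι × ℕ)) (hL : Bounded Y L) :
    (HodgeType W (nodalTower Y D Z E L).X (nodalTower Y D Z E L).D ↔ HodgeType W Z.X E) ∧
    (HomEqNum W (nodalTower Y D Z E L).X ↔ HomEqNum W Z.X) :=
  ⟨finiteHodge h hE hHL L hL, finiteD h E L hL⟩

end Pool.Agent.Results.MP_361a6f_ag.EvenFiniteInertia
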